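import Mathlib
import Pool.Agent.Lib.MP_537007_co.Main

set_option autoImplicit false

namespace Pool.Agent.Results.MP_537007_co.Unbounded

open Pool.Agent.Lib.MP_537007_co

/-- `F` is a pairwise suitable family of linear orders for `G`: for any two disjoint edges
`ab`, `cd` some order of the family puts both ends of one before both ends of the other. -/
def PairwiseSuitable {V ι : Type} (G : SimpleGraph V) (F : ι → LinearOrder V) : Prop :=
  ∀ a b c d : V, G.Adj a b → G.Adj c d → a ≠ c → a ≠ d → b ≠ c → b ≠ d →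
    ∃ i, ((F i).lt a c ∧ (F i).lt a d ∧ (F i).lt b c ∧ (F i).lt b d) ∨
      ((F i).lt c a ∧ (F i).lt d a ∧ (F i).lt c b ∧ (F i).lt d b)

/-- `G` is the intersection graph of a family of closed axis-parallel boxes in `ℝ^k`. -/
def IsBoxGraph {V : Type} (G : SimpleGraph V) (k : ℕ) : Prop :=
  ∃ l r : V → Fin k → ℝ, (∀ v, l v ≤ r v) ∧
    ∀ u v : V, u ≠ v → (G.Adj u v ↔ (Set.Icc (l u) (r u) ∩ Set.Icc (l v) (r v)).Nonempty)

theorem boxRep_of_isBoxGraph {V : Type} (G : SimpleGraph V) {k d : ℕ} (hk : k ≤ d)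
    (h : IsBoxGraph G k) : BoxRep G d := by
  obtain ⟨l, r, hlr, h⟩ := h
  refine ⟨fun v i => if hi : i.1 < k then l v ⟨i.1, hi⟩ else 0,
    fun v i => if hi : i.1 < k then r v ⟨i.1, hi⟩ else 0, fun v i => ?_, fun u v huv => ?_⟩
  · by_cases hi : i.1 < k
    · simp only [hi, dite_true]; exact hlr v _
    · simp [hi]
  · rw [h u v huv, Set.Icc_inter_Icc, Set.nonempty_Icc]
    constructor
    · intro H i
      by_cases hi : i.1 < k
      · simp only [hi, dite_true]; exact H _
      · simp [hi]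
    · intro H j
      have := H ⟨j.1, lt_of_lt_of_le j.2 hk⟩
      simpa [j.2] using this

theorem suitable_of_lineGraph {V : Type} [Fintype V] (G : SimpleGraph V) (K : ℕ)
    (h : BoxRep G.lineGraph K) : ∃ F : Fin K → LinearOrder V, PairwiseSuitable G F := by
  classical
  obtain ⟨l, r, hlr, h⟩ := h
  -- each vertex is placed at the largest left end of an incident edge (Helly in dimension one)
  let φ : V → Fin K → WithBot ℝ := fun v i =>
    (Finset.univ.filter (fun e : G.edgeSet => v ∈ e.1)).sup (fun e => ((l e i : ℝ) : WithBot ℝ))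
  have hl : ∀ (e : G.edgeSet) v i, v ∈ e.1 → ((l e i : ℝ) : WithBot ℝ) ≤ φ v i := by
    intro e v i hv
    exact Finset.le_sup (f := fun e : G.edgeSet => ((l e i : ℝ) : WithBot ℝ)) (by simpa using hv)
  have hr : ∀ (e : G.edgeSet) v i, v ∈ e.1 → φ v i ≤ ((r e i : ℝ) : WithBot ℝ) := by
    intro e v i hv
    apply Finset.sup_le
    intro e' he'
    have hv' : v ∈ e'.1 := by simpa using he'
    rw [WithBot.coe_le_coe]
    by_cases hee : e' = e
    · subst hee; exact hlr _ _
    · have := (h e' e hee).1 (SimpleGraph.lineGraph_adj_iff_exists.2 ⟨hee, v, hv', hv⟩) i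
      exact (le_max_left _ _).trans (this.trans (min_le_right _ _))
  let key : Fin K → V → (WithBot ℝ ×ₗ Fin (Fintype.card V)) :=
    fun i v => toLex (φ v i, Fintype.equivFin V v)
  have hinj : ∀ i, Function.Injective (key i) := by
    intro i u v huv
    have := congrArg (fun x => (ofLex x).2) huv
    simpa [key] using this
  refine ⟨fun i => LinearOrder.lift' (key i) (hinj i), ?_⟩
  have hlt : ∀ i u v, φ u i < φ v i → (LinearOrder.lift' (key i) (hinj i)).lt u v := by
    intro i u v huv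
    change key i u < key i v
    exact Prod.Lex.toLex_lt_toLex.2 (Or.inl huv)
  intro a b c d hab hcd hac had hbc hbd
  let e₁ : G.edgeSet := ⟨s(a, b), hab⟩
  let e₂ : G.edgeSet := ⟨s(c, d), hcd⟩
  have hne : e₁ ≠ e₂ := by
    intro hh
    have : s(a, b) = s(c, d) := congrArg Subtype.val hh
    rw [Sym2.eq_iff] at this
    tauto
  have hna : ¬ G.lineGraph.Adj e₁ e₂ := by
    rw [SimpleGraph.lineGraph_adj_iff_exists]
    rintro ⟨-, v, h1, h2⟩
    simp only [e₁, e₂, Sym2.mem_iff] at h1 h2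
    rcases h1 with rfl | rfl <;> rcases h2 with h2 | h2 <;> contradiction
  rw [h e₁ e₂ hne] at hna
  push Not at hna
  obtain ⟨i, hi⟩ := hna
  have ha : a ∈ e₁.1 := by simp [e₁]
  have hb : b ∈ e₁.1 := by simp [e₁]
  have hc : c ∈ e₂.1 := by simp [e₂]
  have hd : d ∈ e₂.1 := by simp [e₂]
  have h1 := hlr e₁ i
  have h2 := hlr e₂ i
  have hcases : r e₁ i < l e₂ i ∨ r e₂ i < l e₁ i := by
    by_contra hcon
    push Not at hcon
    exact absurd hi (not_lt.2 (max_le (le_min h1 hcon.2) (le_min hcon.1 h2)))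
  refine ⟨i, ?_⟩
  rcases hcases with H | H
  · have H' : ((r e₁ i : ℝ) : WithBot ℝ) < ((l e₂ i : ℝ) : WithBot ℝ) := WithBot.coe_lt_coe.2 H
    left
    exact ⟨hlt i _ _ (((hr e₁ a i ha).trans_lt H').trans_le (hl e₂ c i hc)),
      hlt i _ _ (((hr e₁ a i ha).trans_lt H').trans_le (hl e₂ d i hd)),
      hlt i _ _ (((hr e₁ b i hb).trans_lt H').trans_le (hl e₂ c i hc)),
      hlt i _ _ (((hr e₁ b i hb).trans_lt H').trans_le (hl e₂ d i hd))⟩
  · have H' : ((r e₂ i : ℝ) : WithBot ℝ) < ((l e₁ i : ℝ) : WithBot ℝ) := WithBot.coe_lt_coe.2 H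
    right
    exact ⟨hlt i _ _ (((hr e₂ c i hc).trans_lt H').trans_le (hl e₁ a i ha)),
      hlt i _ _ (((hr e₂ d i hd).trans_lt H').trans_le (hl e₁ a i ha)),
      hlt i _ _ (((hr e₂ c i hc).trans_lt H').trans_le (hl e₁ b i hb)),
      hlt i _ _ (((hr e₂ d i hd).trans_lt H').trans_le (hl e₁ b i hb))⟩

/-- Finite graphs of separation dimension at most `10` have unbounded boxicity. -/
theorem result (d : ℕ) :
    ∃ (V : Type) (_ : Fintype V) (G : SimpleGraph V),
      (∃ F : Fin 10 → LinearOrder V, PairwiseSuitable G F) ∧ ∀ k ≤ d, ¬ IsBoxGraph G k := by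
  obtain ⟨V, hV, G, h1, h2⟩ := exists_sep_le_ten d
  exact ⟨V, hV, G, suitable_of_lineGraph G 10 h1, fun k hk h => h2 (boxRep_of_isBoxGraph G hk h)⟩

end Pool.Agent.Results.MP_537007_co.Unbounded
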